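import Pool.Agent.Y667.QK.Stm
import Pool.Agent.Y535.RZ.SEL17

/-!
# Project QK: the Selmer groups of the twists
-/

set_option autoImplicit false

namespace Pool.Agent.Y587.QK

open Finset Pool.Agent.W262.RK Pool.Agent.W307.RT Pool.Agent.W307.RS Pool.Agent.W307.SE
  Pool.Agent.W307.FK Pool.Agent.W214.RK2 Pool.Agent.Y667.RP Pool.Agent.Y667.RZ
  Pool.Agent.Y667.QK Pool.Agent.Y535.RZ

lemma adt_mod8 {τ : ℕ} (h : AdT τ) : τ % 8 = 1 := by
  have h1 : ∏ q ∈ τ.primeFactors, q = τ := Nat.prod_primeFactors_of_squarefree h.sqf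
  have h2 : (∏ q ∈ τ.primeFactors, q) % 8 = 1 := by
    rw [Finset.prod_nat_mod, Finset.prod_congr rfl (fun q hq => h.m8 q hq)]
    simp
  rw [h1] at h2
  exact h2

lemma jac_prod_one {q : ℕ} (S : Finset ℕ) (h : ∀ x ∈ S, jacobiSym (x : ℤ) q = 1) :
    jacobiSym ((∏ x ∈ S, x : ℕ) : ℤ) q = 1 := by
  classical
  induction S using Finset.induction_on with
  | empty => simp
  | insert a S ha ih =>
    rw [Finset.prod_insert ha, Nat.cast_mul, jacobiSym.mul_left, h a (Finset.mem_insert_self _ _),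
      ih (fun x hx => h x (Finset.mem_insert_of_mem hx)), one_mul]

lemma ndj {q : ℕ} (hq : q.Prime) {z : ℤ} (h : jacobiSym z q ≠ 0) : ¬ (q : ℤ) ∣ z := by
  intro h'
  apply h
  rw [jacobiSym.mod_left, Int.emod_eq_zero_of_dvd h', jacobiSym.zero_left hq.one_lt]

lemma nsq_mul {q : ℕ} (hq : q.Prime) {z : ℤ} (h : ¬ (q : ℤ) ∣ z) : ¬ (q : ℤ) ^ 2 ∣ (q : ℤ) * z := by
  intro h'
  rw [_root_.sq] at h'
  exact h (Int.dvd_of_mul_dvd_mul_left (by exact_mod_cast hq.ne_zero) h')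

/-- the local hypothesis at a prime of the twist -/
lemma loc3 {q t x y : ℕ} {κ2 : ℤ} (hq : q.Prime) (jt : jacobiSym (t : ℤ) q = 1)
    (jx : jacobiSym (x : ℤ) q = 1) (jy : jacobiSym (y : ℤ) q = 1)
    (jd : jacobiSym (κ2 * ((x : ℤ) - y)) q = 1) :
    LocH 3 ![1, 1, κ2] false q (((q * t : ℕ) : ℤ) * x) (((q * t : ℕ) : ℤ) * y) := by
  have e0 : (q : ℤ) ≠ 0 := by exact_mod_cast hq.ne_zero
  have nx : ¬ (q : ℤ) ∣ (t : ℤ) * x := by
    apply ndj hq
    rw [jacobiSym.mul_left, jt, jx]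
    norm_num
  have ny : ¬ (q : ℤ) ∣ (t : ℤ) * y := by
    apply ndj hq
    rw [jacobiSym.mul_left, jt, jy]
    norm_num
  have jt' : jacobiSym (κ2 * ((t : ℤ) * x - t * y)) q = 1 := by
    rw [show κ2 * ((t : ℤ) * x - t * y) = t * (κ2 * ((x : ℤ) - y)) by ring, jacobiSym.mul_left, jt,
      jd, one_mul]
  have nd : ¬ (q : ℤ) ∣ (t : ℤ) * x - t * y := by
    intro h'
    refine ndj hq (z := κ2 * ((t : ℤ) * x - t * y)) ?_ (h'.mul_left _)
    rw [jt']
    norm_num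
  have ex : (((q * t : ℕ) : ℤ) * x) = q * ((t : ℤ) * x) := by push_cast; ring
  have ey : (((q * t : ℕ) : ℤ) * y) = q * ((t : ℤ) * y) := by push_cast; ring
  unfold LocH
  rw [if_neg (by decide), if_neg (by decide), if_neg (by decide), ex, ey, ← mul_sub,
    Int.mul_ediv_cancel_left _ e0, Int.mul_ediv_cancel_left _ e0, Int.mul_ediv_cancel_left _ e0]
  refine ⟨dvd_mul_right _ _, dvd_mul_right _ _, nsq_mul hq nx, nsq_mul hq ny, nsq_mul hq nd,
    ?_, ?_, ?_⟩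
  · show jacobiSym (1 * ((t : ℤ) * x)) q = 1
    rw [one_mul, jacobiSym.mul_left, jt, jx, one_mul]
  · show jacobiSym (1 * ((t : ℤ) * y)) q = 1
    rw [one_mul, jacobiSym.mul_left, jt, jy, one_mul]
  · show jacobiSym (κ2 * ((t : ℤ) * x - t * y)) q = 1
    exact jt'

lemma ll3 {q : ℕ} {κ2 : ℤ} (b v w h g : Bool) (e1 : sg0 q 1 = false) (e2 : sg0 q κ2 = b)
    (e3 : sg0 q (-1) = false) (e4 : sg0 q (-κ2) = b)
    (hLL : LL 3 ![1, 1, κ2] false q v w h g) : h = false ∧ g = (v && b) := by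
  unfold LL at hLL
  rw [if_neg (by decide), if_neg (by decide), if_neg (by decide)] at hLL
  have hLL' : h = xor (v && false) (xor (v && !w && sg0 q 1) (xor (!v && w && sg0 q (1 * 1))
      (v && w && sg0 q 1))) ∧
    g = xor (w && false) (xor (v && !w && sg0 q (1 * κ2)) (xor (!v && w && sg0 q (-1))
      (v && w && sg0 q (-κ2)))) := hLL
  rw [one_mul, one_mul, e1, e2, e3, e4] at hLL'
  revert hLL'
  cases v <;> cases w <;> cases h <;> cases g <;> cases b <;> simp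

lemma jm1 {q : ℕ} (h8 : q % 8 = 1) : jacobiSym (-1) q = 1 := by
  rw [jacobiSym.at_neg_one (Nat.odd_iff.2 (by omega)), ZMod.χ₄_nat_one_mod_four (by omega)]

lemma j2 {q : ℕ} (h8 : q % 8 = 1) : jacobiSym 2 q = 1 := by
  rw [jacobiSym.at_two (Nat.odd_iff.2 (by omega)), ZMod.χ₈_nat_eq_if_mod_eight]
  simp [h8]
  omega

lemma sg_of_one {q : ℕ} {z : ℤ} (h : jacobiSym z q = 1) : sg0 q z = false := by
  unfold sg0
  rw [decide_eq_false_iff_not, h]
  norm_num

lemma jac_twt {p τ : ℕ} (hp : p.Prime) (hτ : ¬ p ∣ τ) {x : ℤ} (hx : ¬ (p : ℤ) ∣ x) :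
    (jacobiSym ((τ : ℤ) * x) p = -1 ↔ ¬ (jacobiSym x p = -1 ↔ jacobiSym (τ : ℤ) p = -1)) := by
  have hval : ∀ y : ℤ, ¬ (p : ℤ) ∣ y → jacobiSym y p = 1 ∨ jacobiSym y p = -1 := by
    intro y hy
    apply jacobiSym.eq_one_or_neg_one
    rw [Int.gcd_comm, ← Int.isCoprime_iff_gcd_eq_one]
    exact ((Nat.prime_iff_prime_int.1 hp).coprime_iff_not_dvd).2 hy
  have hτ' : ¬ (p : ℤ) ∣ τ := fun h => hτ (Int.natCast_dvd_natCast.1 h)
  rw [jacobiSym.mul_left]
  rcases hval x hx with h1 | h1 <;> rcases hval τ hτ' with h2 | h2 <;> rw [h1, h2] <;> norm_num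

/-- the data of the local condition at a prime of the twist -/
lemma loc_tau {f β τ q : ℕ} {s : Fin 3 → ℕ} (hf : Flip f β) (hτ : AdT τ)
    (hR : RC f β τ (s 0) (s 1)) (hq : q ∈ τ.primeFactors) {d : ℤ × ℤ}
    (hd : d ∈ Sel ((τ : ℤ) * s 0) ((τ : ℤ) * s 1)) :
    sgn q d.1 = false ∧ sgn q d.2 = (dv q d.1 && decide (q = f)) := by
  classical
  have hqp : q.Prime := Nat.prime_of_mem_primeFactors hq
  have : Fact q.Prime := ⟨hqp⟩
  have h8 := hτ.m8 q hq
  obtain ⟨r1, r2, r3⟩ := hR q hq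
  have hq2 : q ≠ 2 := by rintro rfl; omega
  obtain ⟨t, ht, jt⟩ : ∃ t : ℕ, τ = q * t ∧ jacobiSym (t : ℤ) q = 1 := by
    refine ⟨∏ x ∈ τ.primeFactors.erase q, x, ?_, jac_prod_one _ ?_⟩
    · rw [Finset.mul_prod_erase τ.primeFactors (fun x => x) hq]
      exact (Nat.prod_primeFactors_of_squarefree hτ.sqf).symm
    · intro x hx
      exact hτ.res x (Finset.mem_of_mem_erase hx) q hq (Finset.ne_of_mem_erase hx)
  have jx : jacobiSym ((s 0 : ℕ) : ℤ) q = 1 := by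
    rw [jacobiSym.mod_left]
    have : ((s 0 : ℕ) : ℤ) % q = 1 := by exact_mod_cast r1
    rw [this]
    exact jacobiSym.one_left _
  obtain ⟨k1, k2, -, k3⟩ := hd
  obtain ⟨x, y, hy, hxy, s1, s2⟩ := k3 q
  have m0 : (s 0 : ℤ) ≡ 1 [ZMOD q] := by
    have e := Int.mod_modEq (s 0 : ℤ) q
    have e' : (s 0 : ℤ) % (q : ℤ) = 1 := by exact_mod_cast r1
    rw [e'] at e
    exact e.symm
  have key : ∀ κ2 : ℤ, ¬ (q : ℤ) ∣ κ2 → jacobiSym ((s 1 : ℕ) : ℤ) q = 1 →
      jacobiSym (κ2 * ((s 0 : ℤ) - s 1)) q = 1 →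
      LL 3 ![1, 1, κ2] false q (dv q d.1) (dv q d.2) (sgn q d.1) (sgn q d.2) := by
    intro κ2 hκ jy jd
    refine loclp_of Pool.Agent.W407.SE.ratp 3 ![1, 1, κ2] false q _ _ hq2
      ?_ ?_ x y hy hxy d.1 d.2 k1 k2 s1 s2
    · intro k
      have h11 : ¬ (q : ℤ) ∣ 1 := by
        intro h'
        have h'' : q ∣ 1 := by exact_mod_cast h'
        exact hqp.one_lt.ne' (Nat.dvd_one.1 h'')
      fin_cases k
      · exact h11
      · exact h11
      · exact hκ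
    · have := loc3 hqp jt jx jy jd
      rw [← ht] at this
      exact this
  by_cases hqf : q = f
  · have hb := r2 hqf
    have b1 := hf.b1
    have b2 := hf.b2
    rw [← hqf] at b1 b2
    have m1 : (s 1 : ℤ) ≡ β [ZMOD q] := by
      have e := Int.mod_modEq (s 1 : ℤ) q
      have e' : (s 1 : ℤ) % (q : ℤ) = β := by exact_mod_cast hb
      rw [e'] at e
      exact e.symm
    have jy : jacobiSym ((s 1 : ℕ) : ℤ) q = 1 := by
      rw [jacobiSym.mod_left' m1]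
      exact b1
    have hdd : jacobiSym ((s 0 : ℤ) - s 1) q = -1 := by
      rw [← b2]
      exact jacobiSym.mod_left' (m0.sub m1)
    have hLL := key (1 - (β : ℤ)) (ndj hqp (by rw [b2]; norm_num)) jy
      (by rw [jacobiSym.mul_left, b2, hdd]; norm_num)
    have hs2 : sg0 q (1 - (β : ℤ)) = true := by
      unfold sg0
      rw [decide_eq_true_iff]
      exact b2
    have hs4 : sg0 q (-(1 - (β : ℤ))) = true := by
      unfold sg0
      rw [decide_eq_true_iff, ← neg_one_mul, jacobiSym.mul_left, jm1 h8, b2, one_mul]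
    have h := ll3 true _ _ _ _ (sg_of_one (jacobiSym.one_left _)) hs2 (sg_of_one (jm1 h8)) hs4 hLL
    rw [decide_eq_true hqf]
    exact h
  · have hb := r3 hqf
    have m1 : (s 1 : ℤ) ≡ -1 [ZMOD q] := by
      have e : (q : ℤ) ∣ (s 1 : ℤ) + 1 := by exact_mod_cast Nat.dvd_of_mod_eq_zero hb
      rw [Int.modEq_iff_dvd]
      obtain ⟨c, hc⟩ := e
      exact ⟨-c, by linarith⟩
    have jy : jacobiSym ((s 1 : ℕ) : ℤ) q = 1 := by
      rw [jacobiSym.mod_left' m1]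
      exact jm1 h8
    have hdd : jacobiSym ((s 0 : ℤ) - s 1) q = 1 := by
      rw [← j2 h8]
      exact jacobiSym.mod_left' (m0.sub m1)
    have hLL := key 1 (ndj hqp (by rw [jacobiSym.one_left]; norm_num)) jy
      (by rw [one_mul]; exact hdd)
    have h := ll3 false _ _ _ _ (sg_of_one (jacobiSym.one_left _))
      (sg_of_one (jacobiSym.one_left _)) (sg_of_one (jm1 h8)) (sg_of_one (jm1 h8)) hLL
    rw [decide_eq_false hqf]
    exact h

theorem SEL : Pool.Agent.Y667.QK.St_SEL := by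
  intro f β τ s hf hτ hs hodd hco hdif h0 h1 hR
  have hτ0 : 0 < τ := Nat.pos_of_ne_zero hτ.sqf.ne_zero
  have hD : Dat s τ := ⟨hs, hodd, hco.symm, hdif, hτ0⟩
  refine hD.incl (adt_mod8 hτ) h0 (Lt f τ s (sgF (s 0) (s 1) (∏ j, s j))) ?_
  intro d hd p hp
  have hpp := Nat.prime_of_mem_primeFactors hp
  unfold Lt
  by_cases hpτ : p ∣ τ
  · rw [if_pos hpτ]
    exact loc_tau hf hτ hR (Nat.mem_primeFactors.2 ⟨hpp, hpτ, hτ0.ne'⟩) hd
  · rw [if_neg hpτ]
    have hpP : p ∣ ∏ j, s j := by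
      rcases (hpp.dvd_mul).1 (Nat.dvd_of_mem_primeFactors hp) with h' | h'
      · exact absurd h' hpτ
      · exact h'
    have hpf : p ∈ (∏ j, s j).primeFactors := Nat.mem_primeFactors.2 ⟨hpp, hpP, hs.ne_zero⟩
    obtain ⟨e0, e1, e2⟩ := hD.memE hpp hpP
    have htw : p ∈ twt τ (∏ j, s j) (sgF (s 0) (s 1) (∏ j, s j)) ↔
        ¬ (p ∈ sgF (s 0) (s 1) (∏ j, s j) ↔ jacobiSym τ p = -1) := by
      unfold twt
      rw [mem_filter]
      exact and_iff_right hpf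
    refine hD.lf hd _ hpp ?_ ?_ ?_
    · intro h'
      rw [htw, e0 h', ← jac_twt hpp hpτ]
      · rw [mul_neg]
      · rw [dvd_neg, Int.natCast_dvd_natCast]
        exact cop_nd hpp hD.cop01 h'
    · intro h'
      rw [htw, e1 h', ← jac_twt hpp hpτ]
      · rw [mul_neg]
      · rw [dvd_neg, Int.natCast_dvd_natCast]
        exact cop_nd hpp hD.cop01.symm h'
    · intro h'
      rw [htw, e2 h', ← jac_twt hpp hpτ]
      rw [Int.natCast_dvd_natCast]
      exact fun h'' => cop_nd hpp hD.cop012.symm h' (h''.mul_right _)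

end Pool.Agent.Y587.QK
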